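import Pool.Agent.Y157.PC.Stm2
import Pool.Agent.Y157.PS.Fin

/-! # The maximal unramified extension is normal -/

set_option autoImplicit false
set_option linter.all false

open Polynomial FF Pointwise

namespace Pool.Agent.Y157.PC

open Pool.Agent.Y157.PS Pool.Agent.W620.SC

section

variable {F Ω : Type} [Field F] [Field Ω] [Algebra F Ω]

theorem mem_inertia (W : ValuationSubring Ω) (τ : Ω ≃ₐ[F] Ω) (h1 : ∀ z, τ z ∈ W ↔ z ∈ W)
    (h2 : ∀ z ∈ W, τ z - z ∈ W.nonunits) : τ ∈ inertia F Ω W := by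
  have hdec : τ ∈ W.decompositionSubgroup F := by
    change τ • W = W
    ext z
    rw [ValuationSubring.mem_pointwise_smul_iff_inv_smul_mem]
    change τ⁻¹ z ∈ W ↔ z ∈ W
    rw [← h1 (τ⁻¹ z)]
    have h3 : τ (τ⁻¹ z) = z := by
      change (τ * τ⁻¹) z = z
      rw [mul_inv_cancel]
      rfl
    rw [h3]
  refine ⟨⟨τ, hdec⟩, ?_, rfl⟩
  change (MulSemiringAction.toRingAut (W.decompositionSubgroup F)
      (IsLocalRing.ResidueField W)) ⟨τ, hdec⟩ = 1
  refine RingEquiv.ext fun r => ?_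
  obtain ⟨z, rfl⟩ := IsLocalRing.residue_surjective r
  change IsLocalRing.residue W ((⟨τ, hdec⟩ : W.decompositionSubgroup F) • z) =
    IsLocalRing.residue W z
  rw [← sub_eq_zero, ← map_sub, IsLocalRing.residue_eq_zero_iff]
  have h4 := h2 z z.2
  rw [ValuationSubring.mem_nonunits_iff_exists_mem_maximalIdeal] at h4
  obtain ⟨h5, h6⟩ := h4
  exact h6

theorem inertia_dec {W : ValuationSubring Ω} {τ : Ω ≃ₐ[F] Ω} (h : τ ∈ inertia F Ω W) (z : Ω) :
    τ z ∈ W ↔ z ∈ W := by
  constructor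
  · intro h1
    have h2 := (inertia_spec ((inertia F Ω W).inv_mem h) h1).1
    have h3 : τ⁻¹ (τ z) = z := by
      change (τ⁻¹ * τ) z = z
      rw [inv_mul_cancel]
      rfl
    rwa [h3] at h2
  · intro h1
    exact (inertia_spec h h1).1

theorem unr_stable (U : Set (ValuationSubring F)) (σ : Ω ≃ₐ[F] Ω) (z : Ω)
    (hz : z ∈ unramified F Ω U) : σ z ∈ unramified F Ω U := by
  rw [mem_unramified] at hz ⊢
  intro W hW τ hτ
  have hW' : (W.comap (σ : Ω →+* Ω)).comap (algebraMap F Ω) ∈ U := by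
    have h1 : (W.comap (σ : Ω →+* Ω)).comap (algebraMap F Ω) = W.comap (algebraMap F Ω) := by
      ext c
      rw [ValuationSubring.mem_comap, ValuationSubring.mem_comap, ValuationSubring.mem_comap]
      have h2 : (σ : Ω →+* Ω) (algebraMap F Ω c) = algebraMap F Ω c := σ.commutes c
      rw [h2]
    rw [h1]
    exact hW
  have hinv : ∀ w : Ω, σ (σ⁻¹ w) = w := fun w => by
    change (σ * σ⁻¹) w = w
    rw [mul_inv_cancel]
    rfl
  have hmem : ∀ w : Ω, w ∈ W.comap (σ : Ω →+* Ω) ↔ σ w ∈ W := fun w => Iff.rfl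
  have h3 := hz _ hW' (σ⁻¹ * τ * σ) (mem_inertia _ _ (fun w => by
      rw [hmem, hmem]
      change σ (σ⁻¹ (τ (σ w))) ∈ W ↔ _
      rw [hinv]
      exact inertia_dec hτ _) (fun w hw => by
      rw [non_incl]
      change σ (σ⁻¹ (τ (σ w)) - w) ∈ W.nonunits
      rw [map_sub, hinv]
      exact (inertia_spec hτ hw).2))
  have h4 : σ (σ⁻¹ (τ (σ z))) = σ z := congrArg σ h3
  rwa [hinv] at h4

theorem unr_normal [IsAlgClosed Ω] [Algebra.IsAlgebraic F Ω] (U : Set (ValuationSubring F)) :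
    Normal F (unramified F Ω U) := by
  haveI : IsAlgClosure F Ω := ⟨inferInstance, inferInstance⟩
  haveI : Normal F Ω := IsAlgClosure.normal F Ω
  rw [IntermediateField.normal_iff_forall_map_le']
  rintro σ z ⟨w, hw, rfl⟩
  exact unr_stable U σ w hw

end

end Pool.Agent.Y157.PC
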