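import Pool.Agent.Y157.PS.Stm4

/-!
# Sections at every finite level: statements of the parts

(helper157, project PC.)  `Ω` is an algebraic closure of `R = ℚ(x)`, `κ = algebraicClosure ℚ Ω`,
`G = Gal(κ/ℚ)`.  Every part is a `def S_X : Prop`; its proof is `theorem x : S_X` in a file of its own.
-/

set_option autoImplicit false
set_option linter.all false

open Polynomial FF

namespace Pool.Agent.Y157.PC

open Pool.Agent.Y157.PS

/-! ## Number theory -/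

/-- the homomorphism `ψ` has finite level -/
def FinLevel {κ Γ : Type} [Field κ] [Algebra ℚ κ] [Group Γ] (ψ : (κ ≃ₐ[ℚ] κ) →* Γ) : Prop :=
  ∃ E : IntermediateField ℚ κ, FiniteDimensional ℚ E ∧ ∀ σ ∈ E.fixingSubgroup, ψ σ = 1

/-- `ψ` is unramified outside `S` -/
def UnramOut {κ Γ : Type} [Field κ] [Algebra ℚ κ] [Group Γ] (S : Finset ℕ)
    (ψ : (κ ≃ₐ[ℚ] κ) →* Γ) : Prop :=
  ∀ p : ℕ, p.Prime → p ∉ S → ∀ V : ValuationSubring κ, (p : κ) ∈ V.nonunits →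
    ∀ σ, Ine V σ → ψ σ = 1

/-- Hermite-Minkowski: there are only finitely many homomorphisms of finite level to a finite group
which are unramified outside `S` -/
def S_HMF : Prop :=
  ∀ (κ Γ : Type) [Field κ] [Algebra ℚ κ] [IsAlgClosure ℚ κ] [Group Γ] [Finite Γ] (S : Finset ℕ),
    {ψ : (κ ≃ₐ[ℚ] κ) →* Γ | FinLevel ψ ∧ UnramOut S ψ}.Finite

/-- Chebotarev: the primes at which `σ₀` is, on `E`, a Frobenius element -/
def ChebSet {κ : Type} [Field κ] [Algebra ℚ κ] (S : Finset ℕ) (E : IntermediateField ℚ κ)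
    (σ₀ : κ ≃ₐ[ℚ] κ) : Set ℕ :=
  {p | p.Prime ∧ p ∉ S ∧ ∃ V : ValuationSubring κ, (p : κ) ∈ V.nonunits ∧
    ∃ φ : κ ≃ₐ[ℚ] κ, Dec V φ ∧ ∀ z ∈ E, φ z = σ₀ z}

def S_CHD : Prop :=
  ∀ (κ : Type) [Field κ] [Algebra ℚ κ] [IsAlgClosure ℚ κ] (S : Finset ℕ)
    (E : IntermediateField ℚ κ), FiniteDimensional ℚ E → ∀ σ₀ : κ ≃ₐ[ℚ] κ,
    ∀ B : ℝ, ∃ T : Finset ℕ, (∀ p ∈ T, p ∈ ChebSet S E σ₀) ∧ B ≤ ∑ p ∈ T, (1 / p : ℝ)

/-- the integers without prime factors in a set of primes with divergent sum of reciprocals have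
density zero -/
def S_SIEV : Prop :=
  ∀ T₀ : Set ℕ, (∀ p ∈ T₀, p.Prime) →
    (∀ B : ℝ, ∃ T : Finset ℕ, (∀ p ∈ T, p ∈ T₀) ∧ B ≤ ∑ p ∈ T, (1 / p : ℝ)) →
    ∀ ε : ℝ, 0 < ε → ∃ X₀ : ℕ, ∀ X : ℕ, X₀ ≤ X →
      ({d : ℤ | d.natAbs ≤ X ∧ ∀ p ∈ T₀, ¬ (p : ℤ) ∣ d}.ncard : ℝ) ≤ ε * X

/-- the integers `d` for which some `ψ`, unramified outside `S`, satisfies the condition `c` at the
decomposition groups of the prime factors of `d`, but not everywhere -/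
def BadSet {κ Γ : Type} [Field κ] [Algebra ℚ κ] [Group Γ] (S : Finset ℕ)
    (c : (κ ≃ₐ[ℚ] κ) → Γ → Prop) : Set ℤ :=
  {d | ∃ ψ : (κ ≃ₐ[ℚ] κ) →* Γ, FinLevel ψ ∧ UnramOut S ψ ∧
    (∀ p : ℕ, p.Prime → (p : ℤ) ∣ d → p ∉ S → ∀ V : ValuationSubring κ, (p : κ) ∈ V.nonunits →
      ∀ σ, Dec V σ → c σ (ψ σ)) ∧
    ∃ σ, ¬ c σ (ψ σ)}

def S_AC : Prop :=
  ∀ (κ Γ : Type) [Field κ] [Algebra ℚ κ] [IsAlgClosure ℚ κ] [Group Γ] [Finite Γ] (S : Finset ℕ)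
    (E : IntermediateField ℚ κ), FiniteDimensional ℚ E → ∀ c : (κ ≃ₐ[ℚ] κ) → Γ → Prop,
    (∀ σ σ' γ, (∀ z ∈ E, σ z = σ' z) → c σ γ → c σ' γ) →
    ∀ ε : ℝ, 0 < ε → ∃ X₀ : ℕ, ∀ X : ℕ, X₀ ≤ X →
      ({d : ℤ | d.natAbs ≤ X ∧ d ∈ BadSet S c}.ncard : ℝ) ≤ ε * X

/-- inertia groups act trivially on a number field, outside a finite set of primes -/
def S_RAM : Prop :=
  ∀ (κ : Type) [Field κ] [Algebra ℚ κ] [IsAlgClosure ℚ κ] (E : IntermediateField ℚ κ),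
    FiniteDimensional ℚ E → ∃ S : Finset ℕ, ∀ p : ℕ, p.Prime → p ∉ S →
      ∀ V : ValuationSubring κ, (p : κ) ∈ V.nonunits → ∀ σ : κ ≃ₐ[ℚ] κ, Ine V σ →
        ∀ z ∈ E, σ z = z

/-! ## Finite extensions of `ℚ(x)` -/

/-- `O` induces on `ℚ(X)` the Gauss valuation ring at `p` -/
def GaussP (p : ℕ) {N : Type} [Field N] (X : N) (O : ValuationSubring N) : Prop :=
  (p : N) ∈ O.nonunits ∧ ∀ g : ℤ[X], (∃ n, ¬ (p : ℤ) ∣ g.coeff n) → IsU O (aeval X g)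

/-- the Gauss valuation is unramified in `L`, outside a finite set of primes -/
def S_GAUSS : Prop :=
  ∀ (R L : Type) [Field R] [Algebra ℚ R] [Field L] [Algebra R L] (x : R), Transcendental ℚ x →
    IntermediateField.adjoin ℚ {x} = ⊤ → FiniteDimensional R L → IsGalois R L →
    ∃ S : Finset ℕ, ∀ p : ℕ, p.Prime → p ∉ S → ∀ (N : Type) [Field N] (ι : L →+* N)
      (O : ValuationSubring N), GaussP p (ι (algebraMap R L x)) O →
      ∀ γ : L ≃ₐ[R] L, (∀ z : L, ι z ∈ O → ι (γ z) - ι z ∈ O.nonunits) → γ = 1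

section

variable {R Ω : Type} [Field R] [Field Ω] [Algebra ℚ R] [Algebra R Ω] [Algebra ℚ Ω]

/-- the valuation ring `W` of `Ω` is above the point `e` of the projective line -/
def At (x : R) (e : ℚ) (W : ValuationSubring Ω) : Prop :=
  (∀ c : ℚ, algebraMap ℚ Ω c ∈ W) ∧ algebraMap R Ω x - algebraMap ℚ Ω e ∈ W.nonunits

/-- `γ` acts on the values of the elements of `L` at some `W` above `e` like `σ` -/
def Cc (x : R) (e : ℚ) (L : IntermediateField R Ω)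
    (σ : algebraicClosure ℚ Ω ≃ₐ[ℚ] algebraicClosure ℚ Ω) (γ : L ≃ₐ[R] L) : Prop :=
  ∃ W : ValuationSubring Ω, At x e W ∧ ∀ (z : L) (c : algebraicClosure ℚ Ω),
    (z : Ω) - (c : Ω) ∈ W.nonunits → (γ z : Ω) - (σ c : Ω) ∈ W.nonunits

end

/-- the values of the elements of `L` at the valuation rings above `e` are in a number field -/
def S_VALS : Prop :=
  ∀ (R Ω : Type) [Field R] [Field Ω] [Algebra ℚ R] [Algebra R Ω] [Algebra ℚ Ω]
    [IsScalarTower ℚ R Ω] [IsAlgClosure R Ω] (x : R), Transcendental ℚ x →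
    IntermediateField.adjoin ℚ {x} = ⊤ → ∀ (e : ℚ) (L : IntermediateField R Ω),
    FiniteDimensional R L → IsGalois R L →
    ∃ E : IntermediateField ℚ (algebraicClosure ℚ Ω), FiniteDimensional ℚ E ∧
      ∀ W : ValuationSubring Ω, At x e W → ∀ z ∈ L, z ∈ W → ∃ c ∈ E, z - (c : Ω) ∈ W.nonunits

/-- `L` is unramified above `e`: every element has the value of an element of `R = ℚ(x)` -/
def UnrAt {R Ω : Type} [Field R] [Field Ω] [Algebra ℚ R] [Algebra R Ω] [Algebra ℚ Ω] (x : R)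
    (e : ℚ) (L : IntermediateField R Ω) : Prop :=
  ∀ W : ValuationSubring Ω, At x e W → ∀ z ∈ L, z ≠ 0 →
    ∃ t : R, t ≠ 0 ∧ IsU W (z / algebraMap R Ω t)

/-- an automorphism of `L` in the inertia group of `W` is trivial if `L` is unramified above `e` -/
def S_INE1 : Prop :=
  ∀ (R Ω : Type) [Field R] [Field Ω] [Algebra ℚ R] [Algebra R Ω] [Algebra ℚ Ω]
    [IsScalarTower ℚ R Ω] [IsAlgClosure R Ω] (x : R), Transcendental ℚ x →
    IntermediateField.adjoin ℚ {x} = ⊤ → ∀ (e : ℚ) (L : IntermediateField R Ω),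
    FiniteDimensional R L → IsGalois R L → UnrAt x e L →
    ∀ W : ValuationSubring Ω, At x e W → ∀ γ : L ≃ₐ[R] L,
      (∀ z : L, (z : Ω) ∈ W → (γ z : Ω) - (z : Ω) ∈ W.nonunits) → γ = 1

/-- the homomorphism to `Gal(L/ℚ(x))` given by a section -/
def S_PSI : Prop :=
  ∀ (R Ω : Type) [Field R] [Field Ω] [Algebra R Ω] [Algebra ℚ Ω] [IsAlgClosure R Ω]
    (F : IntermediateField R Ω) (N : IntermediateField F Ω)
    (S : (algebraicClosure ℚ Ω ≃ₐ[ℚ] algebraicClosure ℚ Ω) →* (N ≃ₐ[F] N)), Continuous S →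
    ∀ L : IntermediateField R Ω, FiniteDimensional R L → IsGalois R L → (∀ z ∈ L, z ∈ N) →
    ∃ ψ : (algebraicClosure ℚ Ω ≃ₐ[ℚ] algebraicClosure ℚ Ω) →* (L ≃ₐ[R] L), FinLevel ψ ∧
      ∀ σ (z : L) (w : N), (w : Ω) = (z : Ω) → (ψ σ z : Ω) = (S σ w : Ω)

/-! ## The section at the primes of good reduction -/

/-- the valuation rings of a number field are discrete, with finite residue field -/
def S_NFV : Prop :=
  ∀ (κ : Type) [Field κ] [Algebra ℚ κ] [IsAlgClosure ℚ κ] (k : IntermediateField ℚ κ),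
    FiniteDimensional ℚ k → ∀ p : ℕ, p.Prime → ∀ V : ValuationSubring κ, (p : κ) ∈ V.nonunits →
    IsDiscreteValuationRing (V.comap (algebraMap k κ)) ∧
      Finite (IsLocalRing.ResidueField (V.comap (algebraMap k κ)))

/-- a section acts trivially on inertia at the primes of good reduction -/
def S_GRED : Prop :=
  ∀ (K : Type) [Fintype K] [DecidableEq K] (e : K → ℤ), Function.Injective e →
    Even (Fintype.card K) → 4 ≤ Fintype.card K → ∀ d : ℤ, ∀ p : ℕ, p.Prime → ¬ (p : ℤ) ∣ 2 →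
    (∀ i j, i ≠ j → ¬ (p : ℤ) ∣ e i - e j) → ¬ (p : ℤ) ∣ d →
    ∀ (F Ω : Type) [Field F] [Field Ω] [Algebra ℚ F] [Algebra F Ω] [Algebra ℚ Ω]
    [IsScalarTower ℚ F Ω] [IsAlgClosed Ω] [Algebra.IsAlgebraic F Ω] (x y : F),
    Transcendental ℚ x → algebraMap ℚ F (d : ℚ) * y ^ 2 = ∏ i, (x - algebraMap ℚ F (e i : ℚ)) →
    IntermediateField.adjoin ℚ {x, y} = (⊤ : IntermediateField ℚ F) →
    ∀ S : (algebraicClosure ℚ Ω ≃ₐ[ℚ] algebraicClosure ℚ Ω) →*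
      (geomPro 2 ℚ F Ω ≃ₐ[F] geomPro 2 ℚ F Ω), Continuous S →
    (∀ σ (c : algebraicClosure ℚ Ω) (z : geomPro 2 ℚ F Ω), (z : Ω) = (c : Ω) →
      (S σ z : Ω) = (σ c : Ω)) →
    ∀ V : ValuationSubring (algebraicClosure ℚ Ω), (p : algebraicClosure ℚ Ω) ∈ V.nonunits →
    ∃ O : ValuationSubring (geomPro 2 ℚ F Ω),
      GaussP p (algebraMap F (geomPro 2 ℚ F Ω) x) O ∧
        ∀ σ, Ine V σ → ∀ z ∈ O, S σ z - z ∈ O.nonunits

/-- a section which preserves `W ∩ M` has the action `Cc` on the finite level `L ⊆ M` -/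
def S_FTWO : Prop :=
  ∀ (R Ω : Type) [Field R] [Field Ω] [Algebra ℚ R] [Algebra R Ω] [Algebra ℚ Ω]
    [IsScalarTower ℚ R Ω] [IsAlgClosure R Ω] (x : R) (e : ℚ) (F : IntermediateField R Ω)
    (N : IntermediateField F Ω), geomPro 2 ℚ F Ω ≤ N →
    ∀ (σ : algebraicClosure ℚ Ω ≃ₐ[ℚ] algebraicClosure ℚ Ω) (s : N ≃ₐ[F] N),
    (∀ (c : algebraicClosure ℚ Ω) (z : N), (z : Ω) = (c : Ω) → (s z : Ω) = (σ c : Ω)) →
    ∀ W : ValuationSubring N, (∀ c : ℚ, algebraMap F N (algebraMap ℚ F c) ∈ W) →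
    algebraMap F N (algebraMap R F x - algebraMap ℚ F e) ∈ W.nonunits →
    (∀ z : N, (z : Ω) ∈ geomPro 2 ℚ F Ω → (s z ∈ W ↔ z ∈ W)) →
    ∀ L : IntermediateField R Ω, (∀ z ∈ L, z ∈ geomPro 2 ℚ F Ω) → ∀ γ : L ≃ₐ[R] L,
    (∀ (z : L) (w : N), (w : Ω) = (z : Ω) → (γ z : Ω) = (s w : Ω)) → Cc x e L σ γ

end Pool.Agent.Y157.PC
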