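import Pool.Agent.Y157.PC.Stm

/-!
# Sections at every finite level: statements of the parts (3), quantitative versions

(helper157, project PC.)
-/

set_option autoImplicit false
set_option linter.all false

open Polynomial FF

namespace Pool.Agent.Y157.PC

open Pool.Agent.Y157.PS

/-- Chebotarev, quantitative -/
def S_CHQ : Prop :=
  ∀ (κ : Type) [Field κ] [Algebra ℚ κ] [IsAlgClosure ℚ κ] (S : Finset ℕ)
    (E : IntermediateField ℚ κ), FiniteDimensional ℚ E → ∀ σ₀ : κ ≃ₐ[ℚ] κ,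
    ∃ δ C : ℝ, 0 < δ ∧ ∀ X : ℕ, 2 ≤ X → ∃ T : Finset ℕ, (∀ p ∈ T, p ∈ ChebSet S E σ₀ ∧ p ≤ X) ∧
      δ * Real.log (Real.log X) - C ≤ ∑ p ∈ T, (1 / p : ℝ)

/-- the number of the integers without prime factors in a set of primes of positive density -/
def S_SIEVQ : Prop :=
  ∀ T₀ : Set ℕ, (∀ p ∈ T₀, p.Prime) → ∀ δ C : ℝ, 0 < δ →
    (∀ X : ℕ, 2 ≤ X → ∃ T : Finset ℕ, (∀ p ∈ T, p ∈ T₀ ∧ p ≤ X) ∧
      δ * Real.log (Real.log X) - C ≤ ∑ p ∈ T, (1 / p : ℝ)) →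
    ∃ C' : ℝ, ∀ X : ℕ, 2 ≤ X →
      ({d : ℤ | d.natAbs ≤ X ∧ ∀ p ∈ T₀, ¬ (p : ℤ) ∣ d}.ncard : ℝ) ≤
        C' * X * (Real.log X) ^ (-δ)

/-- the number of the exceptional integers -/
def S_ACQ : Prop :=
  ∀ (κ Γ : Type) [Field κ] [Algebra ℚ κ] [IsAlgClosure ℚ κ] [Group Γ] [Finite Γ] (S : Finset ℕ)
    (E : IntermediateField ℚ κ), FiniteDimensional ℚ E → ∀ c : (κ ≃ₐ[ℚ] κ) → Γ → Prop,
    (∀ σ σ' γ, (∀ z ∈ E, σ z = σ' z) → c σ γ → c σ' γ) →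
    ∃ δ C : ℝ, 0 < δ ∧ ∀ X : ℕ, 2 ≤ X →
      ({d : ℤ | d.natAbs ≤ X ∧ d ∈ BadSet S c}.ncard : ℝ) ≤ C * X * (Real.log X) ^ (-δ)

end Pool.Agent.Y157.PC
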