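import Pool.Agent.Y157.PC.Core
import Pool.Agent.Y157.PC.Unr
import Pool.Agent.Y737.PC.HMF
import Pool.Agent.Y287.PC.CHQ
import Pool.Agent.Y848.PC.SIEVQ
import Pool.Agent.Y547.PCQ.Acq
import Pool.Agent.Y809.PC.Ram
import Pool.Agent.Y166.PC.GAUSS
import Pool.Agent.Y115.PC.Vals
import Pool.Agent.Y780.PC.Ine1
import Pool.Agent.Y780.PC.Taux
import Pool.Agent.Y768.PC.UNQF
import Pool.Agent.Y686.PC.Psi
import Pool.Agent.Y143.PC.NFV
import Pool.Agent.Y968.PC.GRED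
import Pool.Agent.Y954.PC.Ftwo

/-! # Sections at a finite level: all parts together

The parts were proved by helper737 (Hermite-Minkowski), helper219 and helper287 (Chebotarev), helper923
and helper848 (sieve), helper293 and helper547 (number of the exceptional integers), helper809
(ramification), helper166 (Gauss valuations), helper115 (values), helper780 (inertia, decomposition
group), helper768 (uniqueness), helper686 (homomorphism), helper143 (number fields), helper968 (good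
reduction), helper954 (action on values).
-/

set_option autoImplicit false
set_option linter.all false

open Polynomial FF

namespace Pool.Agent.Y157.PC

open Pool.Agent.Y157.PS

theorem a_acq : S_ACQ := Pool.Agent.Y547.PCQ.acq Pool.Agent.Y737.PC.hmf Pool.Agent.Y287.PC.chq
  Pool.Agent.Y848.PC.sievq
theorem a_ram : S_RAM := Pool.Agent.Y809.PC.ram
theorem a_gauss : S_GAUSS := Pool.Agent.Y166.PC.gauss
theorem a_vals : S_VALS := Pool.Agent.Y115.PC.vals
theorem a_ine1 : S_INE1 := Pool.Agent.Y780.PC.ine1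
theorem a_psi : S_PSI := Pool.Agent.Y686.PC.psi
theorem a_gred : S_GRED := Pool.Agent.Y968.PC.gred Pool.Agent.Y143.PC.nfv
theorem a_ftwo : S_FTWO := Pool.Agent.Y954.PC.ftwo
theorem a_taux : S_TAUX := Pool.Agent.Y780.PC.taux Pool.Agent.Y768.PC.unqf a_vals a_ine1

theorem level {K : Type} [Fintype K] [DecidableEq K] (e : K → ℤ)
    (he : Function.Injective e) (hev : Even (Fintype.card K)) (h4 : 4 ≤ Fintype.card K)
    {R Ω : Type} [Field R] [Field Ω] [Algebra ℚ R] [Algebra R Ω]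
    [Algebra ℚ Ω] [IsScalarTower ℚ R Ω] [IsAlgClosure R Ω] (x : R) (hx : Transcendental ℚ x)
    (hR : IntermediateField.adjoin ℚ {x} = ⊤) (i : K) (L : IntermediateField R Ω)
    (hLf : FiniteDimensional R L) (hLg : IsGalois R L) :
    ∃ B : Set ℤ, (∃ δ C : ℝ, 0 < δ ∧ 0 ≤ C ∧ ∀ X : ℕ, 2 ≤ X →
      ({d : ℤ | d.natAbs ≤ X ∧ d ∈ B}.ncard : ℝ) ≤ C * X * (Real.log X) ^ (-δ)) ∧
    ∀ d : ℤ, d ≠ 0 → d ∉ B → UnrAt x (e i : ℚ) L → ∀ (F : IntermediateField R Ω) (y : F)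
    (hxy : algebraMap ℚ F (d : ℚ) * y ^ 2 =
      ∏ i, (algebraMap R F x - algebraMap ℚ F (e i : ℚ)))
    (hF : IntermediateField.adjoin ℚ {algebraMap R F x, y} = (⊤ : IntermediateField ℚ F))
    (N : IntermediateField F Ω) (hN : Normal F N) (hMN : geomPro 2 ℚ F Ω ≤ N)
    (hLM : ∀ z ∈ L, z ∈ geomPro 2 ℚ F Ω) (a : Algebra ℚ (algebraicClosure ℚ Ω))
    (s : (algebraicClosure ℚ Ω ≃ₐ[ℚ] algebraicClosure ℚ Ω) →* (N ≃ₐ[F] N))
    (hcont : Continuous s)
    (hcompat : ∀ σ (c : algebraicClosure ℚ Ω) (z : N), (z : Ω) = (c : Ω) →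
      (s σ z : Ω) = (σ c : Ω))
    (hloc : ∀ p : ℕ, p.Prime → (p : ℤ) ∣ d → ¬ (p : ℤ) ∣ 2 →
      (∀ j k, j ≠ k → ¬ (p : ℤ) ∣ e j - e k) →
      ∀ V : ValuationSubring (algebraicClosure ℚ Ω), (p : algebraicClosure ℚ Ω) ∈ V.nonunits →
      ∃ W : ValuationSubring N, (∀ c : ℚ, algebraMap F N (algebraMap ℚ F c) ∈ W) ∧
        algebraMap F N (algebraMap R F x - algebraMap ℚ F (e i : ℚ)) ∈ W.nonunits ∧
        ∀ σ : algebraicClosure ℚ Ω ≃ₐ[ℚ] algebraicClosure ℚ Ω, Dec V σ →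
          ∀ z : N, (z : Ω) ∈ geomPro 2 ℚ F Ω → (s σ z ∈ W ↔ z ∈ W)),
    ∀ σ : algebraicClosure ℚ Ω ≃ₐ[ℚ] algebraicClosure ℚ Ω,
      ∃ (W : ValuationSubring N) (τ : N ≃ₐ[F] N),
        (∀ c : ℚ, algebraMap F N (algebraMap ℚ F c) ∈ W) ∧
        algebraMap F N (algebraMap R F x - algebraMap ℚ F (e i : ℚ)) ∈ W.nonunits ∧
        (∀ z, τ z ∈ W ↔ z ∈ W) ∧
        (∀ z : N, (z : Ω) ∈ L → τ z = s σ z) ∧
        ∀ (z : N) (c : algebraicClosure ℚ Ω), (z : Ω) = (c : Ω) → τ z = s σ z := by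
  obtain ⟨E, S, hS⟩ := exS a_vals a_ram a_gauss e he x hx hR i L hLf hLg
  haveI hcl : IsAlgClosed Ω := IsAlgClosure.isAlgClosed R
  haveI hclQ := algCl Ω
  haveI hfin : Finite (L ≃ₐ[R] L) := inferInstance
  obtain ⟨δ, C, hδ, hC⟩ := a_acq (algebraicClosure ℚ Ω) (L ≃ₐ[R] L) S E hS.fin
    (Cc x (e i : ℚ) L) (fun σ σ' γ h hc => Cc_inv hS.vals σ σ' γ h hc)
  refine ⟨BadSet S (Cc x (e i : ℚ) L), ⟨δ, max C 0, hδ, le_max_right _ _, fun X hX => ?_⟩, ?_⟩
  · refine (hC X hX).trans ?_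
    have hX' : (2 : ℝ) ≤ X := by exact_mod_cast hX
    have hL0 : 0 < Real.log X := Real.log_pos (by linarith)
    apply mul_le_mul_of_nonneg_right _ (Real.rpow_pos_of_pos hL0 _).le
    exact mul_le_mul_of_nonneg_right (le_max_left _ _) (by linarith)
  · intro d hd hbad hun F y hxy hF N hN hMN hLM a s hcont hcompat hloc
    exact core a_psi a_ine1 a_gred a_ftwo a_taux e he hev h4 d hd x hx hR i L hLf hLg hun E S hS
      hbad F y hxy hF N hN hMN hLM s hcont hcompat hloc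

end Pool.Agent.Y157.PC
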