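import Pool.Agent.Y157.PC.Stm2
import Pool.Agent.Y157.PS.Fin

/-! # The exceptional set of primes and the invariance of the condition -/

set_option autoImplicit false
set_option linter.all false

open Polynomial FF

namespace Pool.Agent.Y157.PC

open Pool.Agent.Y157.PS

theorem algCl' (Ω : Type) [Field Ω] [Algebra ℚ Ω] [IsAlgClosed Ω]
    (a : Algebra ℚ (algebraicClosure ℚ Ω)) : @IsAlgClosure ℚ (algebraicClosure ℚ Ω) _ _ a _ := by
  obtain rfl : a = IntermediateField.algebra' _ := Subsingleton.elim _ _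
  have h : ∀ (k : Type) [Field k] [Algebra k Ω], IsAlgClosure k (algebraicClosure k Ω) :=
    fun k _ _ => inferInstance
  exact h ℚ

theorem algCl (Ω : Type) [Field Ω] [Algebra ℚ Ω] [IsAlgClosed Ω] :
    IsAlgClosure ℚ (algebraicClosure ℚ Ω) := algCl' Ω _

/-- the primes where something is wrong -/
structure GoodS {R Ω : Type} [Field R] [Field Ω] [Algebra ℚ R] [Algebra R Ω] [Algebra ℚ Ω]
    {K : Type} (e : K → ℤ) (x : R) (i : K) (L : IntermediateField R Ω)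
    (E : IntermediateField ℚ (algebraicClosure ℚ Ω)) (S : Finset ℕ) : Prop where
  fin : FiniteDimensional ℚ E
  vals : ∀ W : ValuationSubring Ω, At x (e i : ℚ) W → ∀ z ∈ L, z ∈ W →
    ∃ c ∈ E, z - (c : Ω) ∈ W.nonunits
  two : ∀ p : ℕ, p.Prime → p ∉ S → ¬ (p : ℤ) ∣ 2
  dif : ∀ p : ℕ, p.Prime → p ∉ S → ∀ j k, j ≠ k → ¬ (p : ℤ) ∣ e j - e k
  ram : ∀ p : ℕ, p.Prime → p ∉ S → ∀ V : ValuationSubring (algebraicClosure ℚ Ω),
    (p : algebraicClosure ℚ Ω) ∈ V.nonunits →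
    ∀ σ : algebraicClosure ℚ Ω ≃ₐ[ℚ] algebraicClosure ℚ Ω, Ine V σ → ∀ z ∈ E, σ z = z
  gauss : ∀ p : ℕ, p.Prime → p ∉ S → ∀ (N : Type) [Field N] (ι : L →+* N)
      (O : ValuationSubring N), GaussP p (ι (algebraMap R L x)) O →
      ∀ γ : L ≃ₐ[R] L, (∀ z : L, ι z ∈ O → ι (γ z) - ι z ∈ O.nonunits) → γ = 1

theorem prime_factors (n : ℤ) (hn : n ≠ 0) : ∃ S : Finset ℕ, ∀ p : ℕ, p.Prime → p ∉ S →
    ¬ (p : ℤ) ∣ n := by
  refine ⟨n.natAbs.primeFactors, fun p hp hpS hpn => hpS ?_⟩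
  rw [Nat.mem_primeFactors]
  exact ⟨hp, Int.natCast_dvd.1 hpn, Int.natAbs_ne_zero.2 hn⟩

theorem exS (hVALS : S_VALS) (hRAM : S_RAM) (hGAUSS : S_GAUSS) {K : Type} [Fintype K]
    [DecidableEq K] (e : K → ℤ) (he : Function.Injective e) {R Ω : Type} [Field R] [Field Ω]
    [Algebra ℚ R] [Algebra R Ω] [Algebra ℚ Ω] [IsScalarTower ℚ R Ω] [IsAlgClosure R Ω] (x : R)
    (hx : Transcendental ℚ x) (hR : IntermediateField.adjoin ℚ {x} = ⊤) (i : K)
    (L : IntermediateField R Ω) (hLf : FiniteDimensional R L) (hLg : IsGalois R L) :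
    ∃ (E : IntermediateField ℚ (algebraicClosure ℚ Ω)) (S : Finset ℕ), GoodS e x i L E S := by
  haveI : IsAlgClosed Ω := IsAlgClosure.isAlgClosed R
  obtain ⟨E, hE, hE2⟩ := hVALS R Ω x hx hR (e i : ℚ) L hLf hLg
  haveI hcl := algCl Ω
  obtain ⟨S1, hS1⟩ := hRAM (algebraicClosure ℚ Ω) E hE
  obtain ⟨S2, hS2⟩ := hGAUSS R L x hx hR hLf hLg
  obtain ⟨S3, hS3⟩ := prime_factors 2 (by norm_num)
  obtain ⟨S4, hS4⟩ := prime_factors
    (∏ q ∈ Finset.univ.filter (fun q : K × K => q.1 ≠ q.2), (e q.1 - e q.2)) (by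
      rw [Finset.prod_ne_zero_iff]
      intro q hq
      rw [Finset.mem_filter] at hq
      exact sub_ne_zero.2 fun h => hq.2 (he h))
  refine ⟨E, S1 ∪ S2 ∪ S3 ∪ S4, hE, hE2, ?_, ?_, ?_, ?_⟩
  · intro p hp hpS
    simp only [Finset.mem_union, not_or] at hpS
    exact hS3 p hp hpS.1.2
  · intro p hp hpS j k hjk hd
    simp only [Finset.mem_union, not_or] at hpS
    apply hS4 p hp hpS.2
    exact hd.trans (Finset.dvd_prod_of_mem (fun q : K × K => e q.1 - e q.2)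
      (Finset.mem_filter.2 ⟨Finset.mem_univ (j, k), hjk⟩))
  · intro p hp hpS
    simp only [Finset.mem_union, not_or] at hpS
    exact hS1 p hp hpS.1.1.1
  · intro p hp hpS
    simp only [Finset.mem_union, not_or] at hpS
    exact hS2 p hp hpS.1.1.2

section

variable {R Ω : Type} [Field R] [Field Ω] [Algebra ℚ R] [Algebra R Ω] [Algebra ℚ Ω]

/-- constants which are nonunits vanish -/
theorem const_zero {x : R} {e : ℚ} {W : ValuationSubring Ω} (hW : At x e W)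
    {c : algebraicClosure ℚ Ω} (hc : (c : Ω) ∈ W.nonunits) : c = 0 :=
  Subtype.ext (Pool.Agent.W620.SC.const_unit hW.1 c.2 hc)

/-- the condition `Cc` depends only on the restriction to `E` -/
theorem Cc_inv {x : R} {e : ℚ} {L : IntermediateField R Ω}
    {E : IntermediateField ℚ (algebraicClosure ℚ Ω)}
    (hE : ∀ W : ValuationSubring Ω, At x e W → ∀ z ∈ L, z ∈ W →
      ∃ c ∈ E, z - (c : Ω) ∈ W.nonunits)
    (σ σ' : algebraicClosure ℚ Ω ≃ₐ[ℚ] algebraicClosure ℚ Ω) (γ : L ≃ₐ[R] L)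
    (h : ∀ z ∈ E, σ z = σ' z) (hc : Cc x e L σ γ) : Cc x e L σ' γ := by
  obtain ⟨W, hW, h1⟩ := hc
  refine ⟨W, hW, fun z c hz => ?_⟩
  have hzW : (z : Ω) ∈ W := by
    have h2 : (z : Ω) = ((z : Ω) - (c : Ω)) + (c : Ω) := by ring
    rw [h2]
    exact add_mem (non_mem hz) (Pool.Agent.W620.SC.const_mem hW.1 c.2)
  obtain ⟨c', hc', h3⟩ := hE W hW z z.2 hzW
  have h4 : c - c' = 0 := by
    apply const_zero hW
    have h5 : ((c - c' : algebraicClosure ℚ Ω) : Ω) = ((z : Ω) - (c' : Ω)) - ((z : Ω) - (c : Ω)) := by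
      push_cast
      ring
    rw [h5]
    exact non_sub h3 hz
  have h6 : c = c' := sub_eq_zero.1 h4
  have h7 := h1 z c hz
  rw [h6, h c' hc', ← h6] at h7
  exact h7

/-- from `Cc` for an element of the inertia group -/
theorem Cc_ine (hINE1 : S_INE1) [IsScalarTower ℚ R Ω] [IsAlgClosure R Ω] {x : R}
    (hx : Transcendental ℚ x) (hR : IntermediateField.adjoin ℚ {x} = ⊤) {e : ℚ}
    {L : IntermediateField R Ω} (hLf : FiniteDimensional R L) (hLg : IsGalois R L)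
    (hun : UnrAt x e L) {E : IntermediateField ℚ (algebraicClosure ℚ Ω)}
    (hE : ∀ W : ValuationSubring Ω, At x e W → ∀ z ∈ L, z ∈ W →
      ∃ c ∈ E, z - (c : Ω) ∈ W.nonunits)
    (σ : algebraicClosure ℚ Ω ≃ₐ[ℚ] algebraicClosure ℚ Ω) (γ : L ≃ₐ[R] L)
    (h : ∀ z ∈ E, σ z = z) (hc : Cc x e L σ γ) : γ = 1 := by
  obtain ⟨W, hW, h1⟩ := hc
  refine hINE1 R Ω x hx hR e L hLf hLg hun W hW γ fun z hz => ?_
  obtain ⟨c, hcE, h3⟩ := hE W hW z z.2 hz
  have h4 := h1 z c h3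
  rw [h c hcE] at h4
  have h5 : (γ z : Ω) - (z : Ω) = ((γ z : Ω) - (c : Ω)) - ((z : Ω) - (c : Ω)) := by ring
  rw [h5]
  exact non_sub h4 h3

end

end Pool.Agent.Y157.PC
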