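import Pool.Agent.Y157.PC.Bad
import Pool.Agent.Y157.PS.Ind2

/-! # The main argument -/

set_option autoImplicit false
set_option linter.all false

open Polynomial FF

namespace Pool.Agent.Y157.PC

open Pool.Agent.Y157.PS

theorem alg_F {K : Type} [Fintype K] (e : K → ℤ) (d : ℤ) (hd : d ≠ 0) {F : Type} [Field F]
    [Algebra ℚ F] (x y : F)
    (hxy : algebraMap ℚ F (d : ℚ) * y ^ 2 = ∏ i, (x - algebraMap ℚ F (e i : ℚ)))
    (hF : IntermediateField.adjoin ℚ {x, y} = (⊤ : IntermediateField ℚ F)) :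
    Algebra.IsAlgebraic (IntermediateField.adjoin ℚ {x}) F := by
  have hd0 : (d : ℚ) ≠ 0 := by exact_mod_cast hd
  refine alg_of_eqn (by norm_num : 0 < 2) (∏ j, (X - C (e j : ℚ))) (d : ℚ) hd0 x y ?_ hF
  rw [hxy, map_prod]
  refine Finset.prod_congr rfl fun j _ => ?_
  rw [map_sub, aeval_X, aeval_C]

theorem core (hPSI : S_PSI) (hINE1 : S_INE1) (hGRED : S_GRED) (hFTWO : S_FTWO)
    (hTAUX : S_TAUX) {K : Type} [Fintype K] [DecidableEq K] (e : K → ℤ)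
    (he : Function.Injective e) (hev : Even (Fintype.card K)) (h4 : 4 ≤ Fintype.card K)
    (d : ℤ) (hd : d ≠ 0) {R Ω : Type} [Field R] [Field Ω] [Algebra ℚ R] [Algebra R Ω]
    [Algebra ℚ Ω] [IsScalarTower ℚ R Ω] [IsAlgClosure R Ω] (x : R) (hx : Transcendental ℚ x)
    (hR : IntermediateField.adjoin ℚ {x} = ⊤) (i : K) (L : IntermediateField R Ω)
    (hLf : FiniteDimensional R L) (hLg : IsGalois R L) (hun : UnrAt x (e i : ℚ) L)
    (E : IntermediateField ℚ (algebraicClosure ℚ Ω)) (S : Finset ℕ) (hS : GoodS e x i L E S)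
    (hbad : d ∉ BadSet S (Cc x (e i : ℚ) L)) (F : IntermediateField R Ω) (y : F)
    (hxy : algebraMap ℚ F (d : ℚ) * y ^ 2 =
      ∏ i, (algebraMap R F x - algebraMap ℚ F (e i : ℚ)))
    (hF : IntermediateField.adjoin ℚ {algebraMap R F x, y} = (⊤ : IntermediateField ℚ F))
    (N : IntermediateField F Ω) (hN : Normal F N) (hMN : geomPro 2 ℚ F Ω ≤ N)
    (hLM : ∀ z ∈ L, z ∈ geomPro 2 ℚ F Ω) [a : Algebra ℚ (algebraicClosure ℚ Ω)]
    (s : (algebraicClosure ℚ Ω ≃ₐ[ℚ] algebraicClosure ℚ Ω) →* (N ≃ₐ[F] N))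
    (hcont : Continuous s)
    (hcompat : ∀ σ (c : algebraicClosure ℚ Ω) (z : N), (z : Ω) = (c : Ω) →
      (s σ z : Ω) = (σ c : Ω))
    (hloc : ∀ p : ℕ, p.Prime → (p : ℤ) ∣ d → ¬ (p : ℤ) ∣ 2 →
      (∀ j k, j ≠ k → ¬ (p : ℤ) ∣ e j - e k) →
      ∀ V : ValuationSubring (algebraicClosure ℚ Ω), (p : algebraicClosure ℚ Ω) ∈ V.nonunits →
      ∃ W : ValuationSubring N, (∀ c : ℚ, algebraMap F N (algebraMap ℚ F c) ∈ W) ∧
        algebraMap F N (algebraMap R F x - algebraMap ℚ F (e i : ℚ)) ∈ W.nonunits ∧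
        ∀ σ : algebraicClosure ℚ Ω ≃ₐ[ℚ] algebraicClosure ℚ Ω, Dec V σ →
          ∀ z : N, (z : Ω) ∈ geomPro 2 ℚ F Ω → (s σ z ∈ W ↔ z ∈ W)) :
    ∀ σ : algebraicClosure ℚ Ω ≃ₐ[ℚ] algebraicClosure ℚ Ω,
      ∃ (W : ValuationSubring N) (τ : N ≃ₐ[F] N),
        (∀ c : ℚ, algebraMap F N (algebraMap ℚ F c) ∈ W) ∧
        algebraMap F N (algebraMap R F x - algebraMap ℚ F (e i : ℚ)) ∈ W.nonunits ∧
        (∀ z, τ z ∈ W ↔ z ∈ W) ∧
        (∀ z : N, (z : Ω) ∈ L → τ z = s σ z) ∧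
        ∀ (z : N) (c : algebraicClosure ℚ Ω), (z : Ω) = (c : Ω) → τ z = s σ z := by
  obtain rfl : a = DivisionRing.toRatAlgebra := Subsingleton.elim _ _
  haveI hcl : IsAlgClosed Ω := IsAlgClosure.isAlgClosed R
  haveI halg : Algebra.IsAlgebraic R Ω := IsAlgClosure.isAlgebraic
  haveI halgF : Algebra.IsAlgebraic F Ω := Algebra.IsAlgebraic.tower_top (K := R) F
  obtain ⟨ψ, hψ1, hψ2⟩ := hPSI R Ω F N s hcont L hLf hLg (fun z hz => hMN (hLM z hz))
  -- at the primes dividing `d`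
  have hc : ∀ p : ℕ, p.Prime → (p : ℤ) ∣ d → p ∉ S →
      ∀ V : ValuationSubring (algebraicClosure ℚ Ω), (p : algebraicClosure ℚ Ω) ∈ V.nonunits →
      ∀ σ, Dec V σ → Cc x (e i : ℚ) L σ (ψ σ) := by
    intro p hp hpd hpS V hV σ hσ
    obtain ⟨W, h1, h2, h3⟩ := hloc p hp hpd (hS.two p hp hpS) (hS.dif p hp hpS) V hV
    exact hFTWO R Ω x (e i) F N hMN σ (s σ) (fun c z hz => hcompat σ c z hz) W h1 h2
      (fun z hz => h3 σ hσ z hz) L hLM (ψ σ) (fun z w hw => hψ2 σ z w hw)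
  -- `ψ` is unramified outside `S`
  have hu : UnramOut S ψ := by
    intro p hp hpS V hV σ hσ
    by_cases hpd : (p : ℤ) ∣ d
    · exact Cc_ine hINE1 hx hR hLf hLg hun hS.vals σ (ψ σ) (hS.ram p hp hpS V hV σ hσ)
        (hc p hp hpd hpS V hV σ hσ.1)
    · have hxF : Transcendental ℚ (algebraMap R F x) :=
        (transcendental_algebraMap_iff (R := ℚ) (algebraMap R F).injective (a := x)).2 hx
      obtain ⟨T, hT, hT2⟩ := a_ind2 2 ℚ F Ω (algebraMap R F x) hxF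
        (alg_F e d hd (algebraMap R F x) y hxy hF) N hMN _ s hcont
      obtain ⟨O, hO1, hO2⟩ := hGRED K e he hev h4 d p hp (hS.two p hp hpS) (hS.dif p hp hpS)
        hpd F Ω (algebraMap R F x) y hxF hxy hF T hT (fun σ c z hz => by
          rw [hT2 σ ⟨z, hMN z.2⟩ z rfl]
          exact hcompat σ c _ hz) V hV
      let ι : L →+* geomPro 2 ℚ F Ω :=
        (algebraMap L Ω).codRestrict (geomPro 2 ℚ F Ω).toSubfield (fun z => hLM z z.2)
      have hι : ∀ z : L, ((ι z : geomPro 2 ℚ F Ω) : Ω) = (z : Ω) := fun z => rfl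
      have hιx : ι (algebraMap R L x) = algebraMap F (geomPro 2 ℚ F Ω) (algebraMap R F x) :=
        Subtype.ext rfl
      refine hS.gauss p hp hpS (geomPro 2 ℚ F Ω) ι O (by rw [hιx]; exact hO1) (ψ σ) fun z hz => ?_
      have h5 := hO2 σ hσ (ι z) hz
      have h6 : T σ (ι z) = ι (ψ σ z) := by
        apply Subtype.ext
        rw [hT2 σ ⟨z, hMN (hLM z z.2)⟩ (ι z) rfl, hι]
        exact (hψ2 σ z _ rfl).symm
      rw [h6] at h5
      exact h5
  -- the conclusion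
  have hall : ∀ σ, Cc x (e i : ℚ) L σ (ψ σ) := by
    by_contra hno
    push Not at hno
    exact hbad ⟨ψ, hψ1, hu, hc, hno⟩
  intro σ
  exact hTAUX K e he hev h4 d hd R Ω x hx hR F y hxy hF i L hLf hLg hun N hN
    (fun z hz => hMN (hLM z hz)) (fun c => hMN (const_geomPro 2 ℚ c)) σ (s σ) (fun c z hz => hcompat σ c z hz) (ψ σ)
    (fun z w hw => hψ2 σ z w hw) (hall σ)

end Pool.Agent.Y157.PC
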