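import Pool.Agent.Y157.PC.Stm

/-!
# Sections at every finite level: statements of the parts (2)

(helper157, project PC.)
-/

set_option autoImplicit false
set_option linter.all false

open Polynomial FF

namespace Pool.Agent.Y157.PC

open Pool.Agent.Y157.PS

/-- `κ F` has only one valuation ring above a branch point -/
def S_UNQF : Prop :=
  ∀ (K : Type) [Fintype K] [DecidableEq K] (e : K → ℤ), Function.Injective e →
    Even (Fintype.card K) → 4 ≤ Fintype.card K → ∀ d : ℤ, d ≠ 0 →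
    ∀ (F Ω : Type) [Field F] [Field Ω] [Algebra ℚ F] [Algebra F Ω] [Algebra ℚ Ω]
    [IsScalarTower ℚ F Ω] [IsAlgClosed Ω] [Algebra.IsAlgebraic F Ω] (x y : F),
    Transcendental ℚ x → algebraMap ℚ F (d : ℚ) * y ^ 2 = ∏ i, (x - algebraMap ℚ F (e i : ℚ)) →
    IntermediateField.adjoin ℚ {x, y} = (⊤ : IntermediateField ℚ F) →
    ∀ (i : K) (W W' : ValuationSubring Ω), (∀ c : ℚ, algebraMap ℚ Ω c ∈ W) →
    algebraMap F Ω x - algebraMap ℚ Ω (e i : ℚ) ∈ W.nonunits →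
    (∀ c : ℚ, algebraMap ℚ Ω c ∈ W') →
    algebraMap F Ω x - algebraMap ℚ Ω (e i : ℚ) ∈ W'.nonunits →
    ∀ z ∈ geomF ℚ F Ω, z ∈ W ↔ z ∈ W'

/-- from the action on values to elements of the decomposition group -/
def S_TAUX : Prop :=
  ∀ (K : Type) [Fintype K] [DecidableEq K] (e : K → ℤ), Function.Injective e →
    Even (Fintype.card K) → 4 ≤ Fintype.card K → ∀ d : ℤ, d ≠ 0 →
    ∀ (R Ω : Type) [Field R] [Field Ω] [Algebra ℚ R] [Algebra R Ω] [Algebra ℚ Ω]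
    [IsScalarTower ℚ R Ω] [IsAlgClosure R Ω] (x : R), Transcendental ℚ x →
    IntermediateField.adjoin ℚ {x} = ⊤ → ∀ (F : IntermediateField R Ω) (y : F),
    algebraMap ℚ F (d : ℚ) * y ^ 2 = ∏ i, (algebraMap R F x - algebraMap ℚ F (e i : ℚ)) →
    IntermediateField.adjoin ℚ {algebraMap R F x, y} = (⊤ : IntermediateField ℚ F) →
    ∀ (i : K) (L : IntermediateField R Ω), FiniteDimensional R L → IsGalois R L →
    UnrAt x (e i : ℚ) L → ∀ N : IntermediateField F Ω, Normal F N →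
    (∀ z ∈ L, z ∈ N) → (∀ c : algebraicClosure ℚ Ω, (c : Ω) ∈ N) →
    ∀ (σ : algebraicClosure ℚ Ω ≃ₐ[ℚ] algebraicClosure ℚ Ω) (s : N ≃ₐ[F] N),
    (∀ (c : algebraicClosure ℚ Ω) (z : N), (z : Ω) = (c : Ω) → (s z : Ω) = (σ c : Ω)) →
    ∀ γ : L ≃ₐ[R] L, (∀ (z : L) (w : N), (w : Ω) = (z : Ω) → (γ z : Ω) = (s w : Ω)) →
    Cc x (e i : ℚ) L σ γ →
    ∃ (W : ValuationSubring N) (τ : N ≃ₐ[F] N),
      (∀ c : ℚ, algebraMap F N (algebraMap ℚ F c) ∈ W) ∧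
      algebraMap F N (algebraMap R F x - algebraMap ℚ F (e i : ℚ)) ∈ W.nonunits ∧
      (∀ z, τ z ∈ W ↔ z ∈ W) ∧
      (∀ z : N, (z : Ω) ∈ L → τ z = s z) ∧
      ∀ (z : N) (c : algebraicClosure ℚ Ω), (z : Ω) = (c : Ω) → τ z = s z

end Pool.Agent.Y157.PC
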